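import Pool.Agent.Helper52.Grid.Defs

set_option autoImplicit false

/-! # (K) completeness from (K0), (K1), (K2) -/

namespace Pool.Agent.Helper52.Grid

theorem sg_lt {s : List Sub} {k i : ℕ} {d : Bool} (h : sg s k = some (i, d)) : k < s.length := by
  by_contra hcon
  rw [sg, List.getD_eq_default _ _ (not_lt.1 hcon)] at h
  exact absurd h (by simp)

theorem sg_mem {s : List Sub} {k i : ℕ} {d : Bool} (h : sg s k = some (i, d)) :
    some (i, d) ∈ s := by
  have hk := sg_lt h
  rw [sg, List.getD_eq_getElem _ _ hk] at h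
  rw [← h]
  exact List.getElem_mem hk

theorem subs_bdd {φ : CNF} {N : ℕ} (hb : ∀ c ∈ φ, ∀ l ∈ c, l.1 < N) {k i : ℕ} {d : Bool}
    (h : sg (subs φ) k = some (i, d)) : i < N := by
  have h1 := sg_mem h
  unfold subs at h1
  rw [List.mem_flatMap] at h1
  obtain ⟨c, hc, h2⟩ := h1
  unfold clSubs at h2
  rw [List.mem_cons] at h2
  rcases h2 with h2 | h2
  · exact absurd h2 (by simp)
  · rw [List.mem_flatMap] at h2
    obtain ⟨l, hl, h3⟩ := h2
    simp only [List.mem_cons, Option.some.injEq, Prod.mk.injEq, List.not_mem_nil, or_false] at h3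
    rcases h3 with h3 | h3
    · rw [h3.1]; exact hb c hc l hl
    · rw [h3.1]; exact hb c hc l hl

theorem subs_head (φ : CNF) (h : 0 < (subs φ).length) : sg (subs φ) 0 = none := by
  cases φ with
  | nil => simp [subs] at h
  | cons c φ => simp [subs, clSubs, sg]

theorem sigma_vUse (s : List Sub) (M : ℕ) (a ch : ℕ → Bool) (i k : ℕ) (d : Bool)
    (hi : i < 2 * M + 1) (h : sg s k = some (i, d)) :
    sigma (vUse s M a ch) i k = (a i == decide (cnt s i k % 2 = 0)) := by
  have hk := sg_lt h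
  have e1 : (6 + 6 * i - 4) / 6 = i := by omega
  have e2 : (6 + 6 * i - 4) % 6 = 2 := by omega
  have e3 : (6 + 4 * k - 5) / 4 = k := by omega
  have e4 : (6 + 4 * k - 5) % 4 = 1 := by omega
  have e5 : ¬ (6 + 6 * i < 4) := by omega
  have e6 : ¬ (6 + 4 * k < 5) := by omega
  have e7 : 6 + 4 * k < 5 + 4 * s.length := by omega
  have hvC : vC s M (6 + 4 * k) (6 + 6 * i) = 2 := by
    unfold vC
    rw [if_neg e5, e1, if_pos hi, if_neg e6, if_pos e7, e2, e3, e4, h]
    cases d <;> simp [kind, vCell]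
  have hvO : vO s a ch (6 + 4 * k) (6 + 6 * i) = bst s a i k := by
    unfold vO
    rw [if_neg e5, if_neg e6, if_pos e7, e1, e2, e3, h]
    cases d <;> simp [kind]
  unfold sigma vUse
  rw [hvC, hvO]
  simp [bst]

theorem compl (hK0 : S_Choice) (hK1 : S_Deg) (hK2 : S_Conn) : S_Compl := by
  intro φ M a hb hsat
  obtain ⟨ch, hch⟩ := hK0 φ a hsat
  have hbd : ∀ k i d, sg (subs φ) k = some (i, d) → i < 2 * M + 1 := fun k i d h => subs_bdd hb h
  obtain ⟨h1, h2, h3⟩ := hK1 (subs φ) M a ch hbd (subs_head φ) hch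
  refine ⟨hUse (subs φ) M a ch, vUse (subs φ) M a ch, ⟨?_, ?_, ?_, ?_, h1, h2, h3, ?_⟩, ?_⟩
  · intro x y h; unfold hUse; rw [if_pos h]
  · intro x y h h'; unfold hUse; rw [if_neg h, if_neg h']
  · intro x y h; unfold vUse; rw [if_pos h]
  · intro x y h h'; unfold vUse; rw [if_neg h, if_neg h']
  · intro S hS1 hS2 p q hp hq hSp
    have e1 := hK2 (subs φ) M a ch hbd (subs_head φ) hch S hS1 hS2 p hp
    have e2 := hK2 (subs φ) M a ch hbd (subs_head φ) hch S hS1 hS2 q hq
    exact e2.2 (e1.1 hSp)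
  · intro i k d h
    exact sigma_vUse _ _ _ _ _ _ _ (hbd k i d h) h

end Pool.Agent.Helper52.Grid
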